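import Pool.Agent.H.MP_7607f9_an.B

namespace Pool.Agent.Results.MP_7607f9_an.Q2

open Filter Topology Pool.Agent.H.MP_7607f9_an

def L1 (S : Set ℚ) (ω : ℝ → ℝ) : Set (S → ℂ) := {f | Summable fun t : S => ‖f t‖ * ω (t : ℚ)}

noncomputable def conv {S : Set ℚ} (f g : S → ℂ) (t : S) : ℂ :=
  ∑' p : {p : S × S // (p.1 : ℚ) + p.2 = t}, f p.1.1 * g p.1.2

def TwoProducts (S : Set ℚ) (ω : ℝ → ℝ) : Prop :=
  ∀ a ∈ L1 S ω, ∃ b₁ ∈ L1 S ω, ∃ c₁ ∈ L1 S ω, ∃ b₂ ∈ L1 S ω, ∃ c₂ ∈ L1 S ω,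
    a = conv b₁ c₁ + conv b₂ c₂

theorem gen (S : Set ℚ) (h1 : ∀ t ∈ S, 0 < t) (h2 : ∀ t ∈ S, ∀ s, 0 < s → s ≤ t → s ∈ S)
    (ω : ℝ → ℝ) (hc : Continuous ω) (h0 : ω 0 = 1) (hp : ∀ t, 0 < ω t) (hl : ∀ t, ω t ≤ 1)
    (hs : ∀ s t, 0 ≤ s → 0 ≤ t → ω (s + t) ≤ ω s * ω t) : TwoProducts S ω := by
  intro a ha
  have H : W fun t : ℚ≥0 => ω (t : ℚ) := by
    refine ⟨by simpa using h0, fun _ => hp _, fun _ => hl _, fun s t => ?_, fun t => ?_⟩
    · push_cast
      exact hs _ _ (by positivity) (by positivity)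
    · have : Tendsto (fun N : ℕ => ω (max ((t : ℚ) - (N : ℝ)⁻¹) 0)) atTop (𝓝 (ω (max ((t : ℚ) - 0) 0))) :=
        (hc.tendsto _).comp ((tendsto_const_nhds.sub tendsto_inv_atTop_nhds_zero_nat).max
          tendsto_const_nhds)
      rw [sub_zero, max_eq_left (by positivity)] at this
      refine (this.eventually (gt_mem_nhds (a := 2 * ω (t : ℚ)) (by linarith [hp (t : ℚ)]))).mono fun N h => ?_
      refine le_of_eq_of_le (congrArg ω ?_) h.le
      change ((max ((t : ℚ) - ((N : ℚ≥0)⁻¹ : ℚ≥0)) 0 : ℚ) : ℝ) = _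
      push_cast; rfl
  let ι : S → ℚ≥0 := fun t => ⟨t, (h1 t t.2).le⟩
  have hι : Function.Injective ι := fun s t h => Subtype.ext (congrArg NNRat.cast h)
  have ne : ∀ t, (ω t : ℂ) ≠ 0 := fun t => Complex.ofReal_ne_zero.mpr (hp t).ne'
  have nm : ∀ t, ‖(ω t : ℂ)‖ = ω t := fun t => by rw [Complex.norm_real, Real.norm_of_nonneg (hp t).le]
  let a' : E := ⟨Function.extend ι (fun t => a t * ω (t : ℚ)) 0, memℓp_gen (by
    refine (hι.summable_iff fun x hx => ?_).mp (ha.congr fun t => ?_)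
    · rw [Function.extend_apply' _ _ _ hx]; simp
    · simp [hι.extend_apply, (hp _).le, abs_of_nonneg])⟩
  have ha' : (a' : ℚ≥0 → ℂ) = Function.extend ι (fun t => a t * ω (t : ℚ)) 0 := rfl
  obtain ⟨x, B, y, C, x0, B0, y0, C0, e⟩ := two H a' (by
    rw [ha', Function.extend_apply' (f := ι) _ _ 0
      fun ⟨t, ht⟩ => (h1 t.1 t.2).ne' (congrArg NNRat.cast ht)]
    rfl)
  let T : E → S → ℂ := fun x t => x (ι t) / ω (t : ℚ)
  have T1 : ∀ x, T x ∈ L1 S ω := fun x => ((sm1 x).summable.comp_injective hι).congr fun t => by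
    simp only [T, norm_div, nm, Function.comp]
    rw [div_mul_cancel₀ _ (hp _).ne']
  have T2 : ∀ x y : E, x 0 = 0 → y 0 = 0 → conv (T x) (T y) = T (Mu H x y) := by
    intro x y x0 y0
    funext t
    have inj : Function.Injective fun p : {p : S × S // (p.1 : ℚ) + p.2 = t} => ι p.1.1 :=
      fun p q h => by
        have := hι h
        refine Subtype.ext (Prod.ext this (Subtype.ext ?_))
        have a1 := p.2
        have a2 := q.2
        rw [this] at a1
        linarith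
    refine HasSum.tsum_eq (((inj.hasSum_iff fun s hs => ?_).mpr
      ((Mu_ap H x y (ι t)).div_const (ω (t : ℚ)))).congr_fun fun p => ?_)
    · split_ifs with h
      · rcases eq_or_ne s 0 with rfl | s0
        · simp [x0]
        rcases h.eq_or_lt with rfl | h
        · simp [y0]
        have b1 : (0 : ℚ) < s := by exact_mod_cast pos_iff_ne_zero.mpr s0
        have b2 : (s : ℚ) < t := h
        exact absurd ⟨⟨(⟨s, h2 t t.2 s b1 b2.le⟩, ⟨t - s, h2 t t.2 _ (by linarith) (by linarith)⟩),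
          by simp⟩, rfl⟩ hs
      · simp
    · have b : ι t = ι p.1.1 + ι p.1.2 := Subtype.ext p.2.symm
      simp only [Function.comp]
      rw [if_pos (b ▸ le_self_add), b, add_tsub_cancel_left, κ, ← b]
      have a1 := ne (p.1.1 : ℚ)
      have a2 := ne (p.1.2 : ℚ)
      have a3 := ne (t : ℚ)
      change _ / _ * (_ / _) = _ * _ * ((ω (t : ℚ) : ℂ) / (ω (p.1.1 : ℚ) * ω (p.1.2 : ℚ))) / _
      field_simp
  refine ⟨_, T1 x, _, T1 B, _, T1 y, _, T1 C, ?_⟩
  rw [T2 x B x0 B0, T2 y C y0 C0]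
  funext t
  have : a t * ω (t : ℚ) = Mu H x B (ι t) + Mu H y C (ι t) := by
    have := congrArg (fun z : E => z (ι t)) e
    rwa [ha', hι.extend_apply] at this
  rw [Pi.add_apply, ← add_div, ← this, mul_div_cancel_right₀ _ (ne _)]

theorem result : TwoProducts {q | 0 < q} (fun _ => 1) ∧
    TwoProducts {q | 0 < q} (fun t => Real.exp (-t ^ 2)) ∧
    TwoProducts {q | 0 < q ∧ q ≤ 1} (fun _ => 1) :=
  ⟨gen _ (fun _ h => h) (fun _ _ _ h _ => h) _ continuous_const rfl (fun _ => one_pos)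
      (fun _ => le_rfl) (by simp),
    gen _ (fun _ h => h) (fun _ _ _ h _ => h) _ (by fun_prop) (by simp) (fun _ => Real.exp_pos _)
      (fun t => Real.exp_le_one_iff.mpr (neg_nonpos.mpr (sq_nonneg t))) fun s t a b => by
        rw [← Real.exp_add]; gcongr; nlinarith [mul_nonneg a b],
    gen _ (fun _ h => h.1) (fun _ a _ h b => And.intro h (b.trans a.2)) _ continuous_const rfl
      (fun _ => one_pos) (fun _ => le_rfl) (by simp)⟩

end Pool.Agent.Results.MP_7607f9_an.Q2
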